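import Pool.Agent.Y308.BQ.Fin

set_option autoImplicit false

/-!
# Two-weight testing theorem for the Bergman projection: measures and uniform constants

Quantitative form with a universal constant, for arbitrary pairs of finite Borel measures carried by
the open unit disc, and for all pairs of weights. The new points with respect to the qualitative
theorem `BergmanTesting`: the operator norm is comparable to the testing constant with universal
constants (the top scale estimate in `Pool.Agent.Y308.BQ.Top`), and the measures need not have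
densities.
-/

open MeasureTheory

namespace Pool.Agent.Results.MP_c45a97_an.UniformMeasures

open Pool.Agent.Helper807.BT Pool.Agent.Y308.BQ

theorem tc_mono {w σ : ℂ → ℝ} {C D : ℝ} (h : C ≤ D) (hT : CondTC w σ C) : CondTC w σ D := by
  intro I l hI
  obtain ⟨⟨a1, a2⟩, ⟨b1, b2⟩⟩ := hT I l hI
  refine ⟨⟨a1, a2.trans ?_⟩, ⟨b1, b2.trans ?_⟩⟩
  · gcongr
  · gcongr

theorem bc_mono {w σ : ℂ → ℝ} {C D : ℝ} (h : C ≤ D) (hB : CondBC w σ C) : CondBC w σ D := by
  intro f hf hf2
  obtain ⟨a1, a2⟩ := hB f hf hf2
  refine ⟨a1, a2.trans ?_⟩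
  gcongr

/-- **Two-weight testing theorem for the Bergman projection, with universal constants.**
There is a constant `κ` such that:
(1) for all finite Borel measures `σ`, `w` on `ℂ` carried by the open unit disc and all `C > 0`: if the
two testing conditions on Carleson boxes hold with constant `C`, then
`‖P(f σ)‖_{L²(w)} ≤ κ C ‖f‖_{L²(σ)}` for all `f ∈ L²(σ)`; conversely this inequality with constant `C`
implies the testing conditions with the constants `C` and `2 C`;
(2) the same for all weights `w`, `σ` on the disc (positive and locally integrable), where the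
absolute convergence of the integrals is part of the conditions; in particular (B) and (T) are
equivalent. -/
theorem result : ∃ κ : ℝ, 0 < κ ∧
    (∀ σ w : Measure ℂ, IsFiniteMeasure σ → IsFiniteMeasure w →
      σ (Metric.ball (0 : ℂ) 1)ᶜ = 0 → w (Metric.ball (0 : ℂ) 1)ᶜ = 0 → ∀ C : ℝ, 0 < C →
      (TestM σ w C → TestM w σ C → BndM σ w (κ * C)) ∧
      (BndM σ w C → TestM σ w C ∧ TestM w σ (2 * C))) ∧
    (∀ w σ : ℂ → ℝ, IsWeight w → IsWeight σ →
      (∀ C : ℝ, 0 < C → (CondTC w σ C → CondBC w σ (κ * C)) ∧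
        (CondBC w σ C → CondTC w σ (2 * C))) ∧
      (CondB w σ ↔ CondT w σ)) := by
  obtain ⟨κ, hκ, H⟩ := realS th ht geoD
  have hW : ∀ w σ : ℂ → ℝ, IsWeight w → IsWeight σ → ∀ C : ℝ, 0 < C →
      (CondTC w σ C → CondBC w σ ((2 * κ + 1) * C)) ∧ (CondBC w σ C → CondTC w σ (2 * C)) :=
    fun w σ hw hσ C hC => ⟨BC_of_TC hκ H hw hσ hC, TC_of_BC hw hσ hC.le⟩
  refine ⟨2 * κ + 1, by linarith, ?_, ?_⟩
  · intro σ w _ _ hσ hw C hC
    exact ⟨fun h1 h2 => BM_of_TM hκ H hσ hw hC h1 h2, fun h => TM_of_BM hσ hw hC.le h⟩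
  · intro w σ hw hσ
    refine ⟨hW w σ hw hσ, ?_, ?_⟩
    · rintro ⟨C, hB⟩
      exact ⟨_, (hW w σ hw hσ (max C 1) (by positivity)).2 (bc_mono (le_max_left _ _) hB)⟩
    · rintro ⟨C, hT⟩
      exact ⟨_, (hW w σ hw hσ (max C 1) (by positivity)).1 (tc_mono (le_max_left _ _) hT)⟩

end Pool.Agent.Results.MP_c45a97_an.UniformMeasures
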